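import Pool.Agent.J4H46.EL.Stm

/-! Project EL: (CLO). -/

set_option autoImplicit false

open scoped TensorProduct Polynomial

universe u

namespace Pool.Agent.J4H79.EL

open Pool.Agent.J4H46.EL Pool.Agent.Helper226 Polynomial

theorem nilp_of_not_isUnit {S : Type*} [CommRing S] [IsArtinianRing S] [IsLocalRing S] (x : S)
    (hx : ¬ IsUnit x) : IsNilpotent x := by
  have h1 : IsNilpotent (Ideal.jacobson (⊥ : Ideal S)) := IsArtinianRing.isNilpotent_jacobson_bot
  rw [IsLocalRing.jacobson_eq_maximalIdeal ⊥ bot_ne_top] at h1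
  obtain ⟨n, hn⟩ := h1
  refine ⟨n, ?_⟩
  have : x ^ n ∈ (IsLocalRing.maximalIdeal S) ^ n :=
    Ideal.pow_mem_pow ((IsLocalRing.mem_maximalIdeal x).2 hx) n
  rw [hn] at this
  exact this

theorem charpoly_of_nilp {Ω S : Type*} [Field Ω] [CommRing S] [Algebra Ω S] [Module.Finite Ω S]
    (x : S) (c : Ω) (h : IsNilpotent (x - algebraMap Ω S c)) :
    (Algebra.lmul Ω S x).charpoly = (X - C c) ^ Module.finrank Ω S := by
  have h1 : IsNilpotent (Algebra.lmul Ω S x - c • 1) := by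
    have h2 := h.map (Algebra.lmul Ω S)
    rwa [map_sub, AlgHom.commutes, Algebra.algebraMap_eq_smul_one] at h2
  have h3 := h1.charpoly_eq_X_pow_finrank
  rw [LinearMap.charpoly_sub_smul] at h3
  have h4 := congrArg (fun p : Polynomial Ω => p.comp (X - C c)) h3
  simp only [comp_assoc, add_comp, X_comp, C_comp, sub_add_cancel, comp_X, pow_comp] at h4
  exact h4

/-- the coefficients of a power of `X - c` determine a power of `c` rationally -/
theorem frob {K A Ω Ω' : Type*} [Field K] [CommRing A] [Algebra K A] [Field Ω] [Algebra K Ω]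
    [Field Ω'] [Algebra K Ω'] [IsAlgClosed Ω'] (φ : A →ₐ[K] Ω) (φ' : A →ₐ[K] Ω')
    (hker : RingHom.ker φ ≤ RingHom.ker φ') (r : ℕ) (hr : 0 < r) (χ : A[X]) (c : Ω)
    (h : χ.map (φ : A →+* Ω) = (X - C c) ^ r) : ∃ c' : Ω', χ.map (φ' : A →+* Ω') = (X - C c') ^ r := by
  obtain ⟨p, hp⟩ := ExpChar.exists K
  obtain ⟨k, m, hrk, hm⟩ : ∃ k m : ℕ, r = p ^ k * m ∧ (m : K) ≠ 0 := by
    rcases hp with h0 | hpp
    · exact ⟨0, r, by simp, by exact_mod_cast hr.ne'⟩
    · obtain ⟨k, m, hm, hrk⟩ := Nat.exists_eq_pow_mul_and_not_dvd hr.ne' p hpp.ne_one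
      refine ⟨k, m, hrk, ?_⟩
      rw [Ne, CharP.cast_eq_zero_iff K p]
      exact hm
  have hpΩ : ExpChar Ω p := expChar_of_injective_algebraMap (algebraMap K Ω).injective p
  have hpΩ' : ExpChar Ω' p := expChar_of_injective_algebraMap (algebraMap K Ω').injective p
  have hp0 : 0 < p := expChar_pos K p
  have hq0 : 0 < p ^ k := Nat.pow_pos hp0
  have hm0 : 0 < m := by
    rcases Nat.eq_zero_or_pos m with h | h
    · rw [h] at hm; simp at hm
    · exact h
  have h1 : χ.map (φ : A →+* Ω) = (X ^ (p ^ k) - C (c ^ (p ^ k))) ^ m := by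
    rw [h, hrk, pow_mul, sub_pow_expChar_pow, ← C_pow]
  -- the coefficient
  have h2 : φ (χ.coeff ((m - 1) * p ^ k)) = - c ^ (p ^ k) * m := by
    have e1 : φ (χ.coeff ((m - 1) * p ^ k)) = (χ.map (φ : A →+* Ω)).coeff ((m - 1) * p ^ k) := by
      rw [coeff_map]; rfl
    have e2 : ((X : Polynomial Ω) ^ (p ^ k) - C (c ^ (p ^ k))) ^ m
        = expand Ω (p ^ k) ((X - C (c ^ (p ^ k))) ^ m) := by
      rw [map_pow (expand Ω (p ^ k)), map_sub, expand_X, expand_C]
    have e3 : (X - C (c ^ (p ^ k)) : Polynomial Ω) = X + C (- c ^ (p ^ k)) := by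
      rw [C_neg, sub_eq_add_neg]
    rw [e1, h1, e2, coeff_expand_mul hq0, e3, coeff_X_add_C_pow]
    obtain ⟨m', rfl⟩ : ∃ m', m = m' + 1 := ⟨m - 1, by omega⟩
    simp
  let α : A := - χ.coeff ((m - 1) * p ^ k) * algebraMap K A (m : K)⁻¹
  have hα : φ α = c ^ (p ^ k) := by
    have : φ α = - φ (χ.coeff ((m - 1) * p ^ k)) * algebraMap K Ω (m : K)⁻¹ := by
      simp only [α, map_mul, map_neg, AlgHom.commutes]
    rw [this, h2, map_inv₀, map_natCast]
    have hmΩ : (m : Ω) ≠ 0 := by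
      have := (map_ne_zero (algebraMap K Ω)).2 hm
      rwa [map_natCast] at this
    field_simp
  have h3 : (χ - (X ^ (p ^ k) - C α) ^ m).map (φ : A →+* Ω) = 0 := by
    rw [Polynomial.map_sub, h1, Polynomial.map_pow, Polynomial.map_sub, Polynomial.map_pow, map_X,
      map_C]
    have : (φ : A →+* Ω) α = c ^ (p ^ k) := hα
    rw [this, sub_self]
  have h4 : (χ - (X ^ (p ^ k) - C α) ^ m).map (φ' : A →+* Ω') = 0 := by
    ext n
    rw [coeff_map, coeff_zero]
    have e := congrArg (fun P : Polynomial Ω => P.coeff n) h3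
    simp only [coeff_map, coeff_zero] at e
    exact hker e
  obtain ⟨c', hc'⟩ := IsAlgClosed.exists_pow_nat_eq (φ' α) hq0
  refine ⟨c', ?_⟩
  rw [Polynomial.map_sub, Polynomial.map_pow, Polynomial.map_sub, Polynomial.map_pow, map_X,
      map_C, sub_eq_zero] at h4
  have e5 : (φ' : A →+* Ω') α = c' ^ (p ^ k) := hc'.symm
  rw [h4, e5, hrk, pow_mul, sub_pow_expChar_pow, ← C_pow]

/-- locality over `Ω` passes to `Ω'` -/
theorem loc_gen {K A Ω Ω' Q : Type*} [Field K] [CommRing A] [Algebra K A] [Field Ω] [Algebra K Ω]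
    [IsAlgClosed Ω] [Field Ω'] [Algebra K Ω'] [IsAlgClosed Ω'] [Algebra A Ω] [Algebra A Ω']
    [IsScalarTower K A Ω] [IsScalarTower K A Ω'] [CommRing Q] [Algebra A Q] [Module.Finite A Q]
    [Module.Free A Q] (hr : 0 < Module.finrank A Q)
    (hker : RingHom.ker (algebraMap A Ω) ≤ RingHom.ker (algebraMap A Ω'))
    (h : IsLocalRing (Ω ⊗[A] Q)) : IsLocalRing (Ω' ⊗[A] Q) := by
  have hA : Nontrivial A := (algebraMap A Ω).domain_nontrivial
  have hfr : Module.finrank Ω (Ω ⊗[A] Q) = Module.finrank A Q := Module.finrank_baseChange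
  have hfr' : Module.finrank Ω' (Ω' ⊗[A] Q) = Module.finrank A Q := Module.finrank_baseChange
  have hart : IsArtinianRing (Ω ⊗[A] Q) := IsArtinianRing.of_finite Ω _
  -- over `Ω`
  have h1 : ∀ b : Q, ∃ c : Ω,
      (Algebra.lmul A Q b).charpoly.map (algebraMap A Ω) = (X - C c) ^ Module.finrank A Q := by
    intro b
    obtain ⟨c, hc⟩ := spectrum.nonempty_of_isAlgClosed_of_finiteDimensional Ω
      ((1 : Ω) ⊗ₜ[A] b : Ω ⊗[A] Q)
    refine ⟨c, ?_⟩
    have h2 : IsNilpotent (((1 : Ω) ⊗ₜ[A] b : Ω ⊗[A] Q) - algebraMap Ω _ c) := by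
      have h3 := nilp_of_not_isUnit _ (spectrum.mem_iff.1 hc)
      rw [← neg_sub]
      exact h3.neg
    have h3 := charpoly_of_nilp _ _ h2
    rw [hfr, ← Algebra.baseChange_lmul, LinearMap.charpoly_baseChange] at h3
    exact h3
  -- over `Ω'`
  have h2 : ∀ b : Q, ∃ c' : Ω',
      IsNilpotent (((1 : Ω') ⊗ₜ[A] b : Ω' ⊗[A] Q) - algebraMap Ω' _ c') := by
    intro b
    obtain ⟨c, hc⟩ := h1 b
    obtain ⟨c', hc'⟩ := frob (IsScalarTower.toAlgHom K A Ω) (IsScalarTower.toAlgHom K A Ω') hker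
      _ hr _ c hc
    refine ⟨c', Module.finrank A Q, ?_⟩
    have h3 : (Algebra.lmul Ω' (Ω' ⊗[A] Q) ((1 : Ω') ⊗ₜ[A] b)).charpoly
        = (X - C c') ^ Module.finrank A Q := by
      rw [← Algebra.baseChange_lmul, LinearMap.charpoly_baseChange]
      exact hc'
    have h4 := LinearMap.aeval_self_charpoly (Algebra.lmul Ω' (Ω' ⊗[A] Q) ((1 : Ω') ⊗ₜ[A] b))
    rw [h3, aeval_algHom_apply] at h4
    have h5 : aeval ((1 : Ω') ⊗ₜ[A] b : Ω' ⊗[A] Q) ((X - C c') ^ Module.finrank A Q) * 1 = 0 :=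
      congrArg (fun f : Module.End Ω' (Ω' ⊗[A] Q) => f 1) h4
    rw [mul_one, map_pow, map_sub, aeval_X, aeval_C] at h5
    exact h5
  have h3 : ∀ x : Ω' ⊗[A] Q, ∃ c' : Ω', IsNilpotent (x - algebraMap Ω' _ c') := by
    intro x
    induction x using TensorProduct.induction_on with
    | zero => exact ⟨0, by simp⟩
    | tmul w b =>
      obtain ⟨c', hc'⟩ := h2 b
      refine ⟨w * c', ?_⟩
      have e : (w ⊗ₜ[A] b : Ω' ⊗[A] Q) - algebraMap Ω' _ (w * c')
          = algebraMap Ω' _ w * (((1 : Ω') ⊗ₜ[A] b : Ω' ⊗[A] Q) - algebraMap Ω' _ c') := by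
        rw [mul_sub, map_mul, Algebra.TensorProduct.algebraMap_apply,
          Algebra.TensorProduct.tmul_mul_tmul]
        simp
      rw [e]
      exact (Commute.all _ _).isNilpotent_mul_left hc'
    | add x y hx hy =>
      obtain ⟨c, hc⟩ := hx
      obtain ⟨d, hd⟩ := hy
      refine ⟨c + d, ?_⟩
      have e : x + y - algebraMap Ω' (Ω' ⊗[A] Q) (c + d)
          = (x - algebraMap Ω' _ c) + (y - algebraMap Ω' _ d) := by
        rw [map_add]; ring
      rw [e]
      exact (Commute.all _ _).isNilpotent_add hc hd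
  have hnt : Nontrivial (Ω' ⊗[A] Q) := by
    apply Module.nontrivial_of_finrank_pos (R := Ω')
    rw [hfr']
    exact hr
  refine IsLocalRing.of_isUnit_or_isUnit_one_sub_self fun x => ?_
  obtain ⟨c, hc⟩ := h3 x
  by_cases h0 : c = 0
  · right
    rw [h0, map_zero, sub_zero] at hc
    exact hc.isUnit_one_sub
  · left
    have hu : IsUnit (algebraMap Ω' (Ω' ⊗[A] Q) c) := (IsUnit.mk0 c h0).map _
    have := hc.isUnit_add_left_of_commute hu (Commute.all _ _)
    simpa using this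

/-- the base change of the quotient -/
noncomputable def bcEquiv {K A Ω B : Type u} [Field K] [CommRing A] [Algebra K A] [Field Ω]
    [Algebra K Ω] [Algebra A Ω] [IsScalarTower K A Ω] [CommRing B] [Algebra K B]
    (J : Ideal (A ⊗[K] B)) :
    Ω ⊗[A] ((A ⊗[K] B) ⧸ J) ≃+* (Ω ⊗[K] B) ⧸ bcI B (IsScalarTower.toAlgHom K A Ω) J :=
  (Algebra.TensorProduct.tensorQuotientEquiv (R := A) Ω (A ⊗[K] B) Ω J).toRingEquiv.trans
    (Ideal.quotientEquiv _ _ (Algebra.TensorProduct.cancelBaseChange K A Ω Ω B).toRingEquiv (by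
      unfold bcI
      change Ideal.map ((Algebra.TensorProduct.map (IsScalarTower.toAlgHom K A Ω)
          (AlgHom.id K B) : A ⊗[K] B →ₐ[K] Ω ⊗[K] B) : A ⊗[K] B →+* Ω ⊗[K] B) J
        = Ideal.map ((Algebra.TensorProduct.cancelBaseChange K A Ω Ω B).toRingEquiv :
            Ω ⊗[A] (A ⊗[K] B) →+* Ω ⊗[K] B)
          (Ideal.map ((Algebra.TensorProduct.includeRight : A ⊗[K] B →ₐ[A] Ω ⊗[A] (A ⊗[K] B)) :
            A ⊗[K] B →+* Ω ⊗[A] (A ⊗[K] B)) J)
      rw [Ideal.map_map]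
      congr 1
      refine RingHom.ext fun x => ?_
      induction x using TensorProduct.induction_on with
      | zero => simp
      | tmul a b =>
        simp [Algebra.TensorProduct.cancelBaseChange_tmul, Algebra.smul_def]
      | add x y hx hy => rw [map_add, map_add, hx, hy]))

theorem t_CLO : S_CLO.{u} := by
  intro K A Ω Ω' B _ _ _ _ _ _ _ _ _ _ _ _ r J φ φ' hJ hr hker h
  obtain ⟨hfin, hproj, hrk⟩ := hJ
  let _ : Algebra A Ω := φ.toRingHom.toAlgebra
  let _ : Algebra A Ω' := φ'.toRingHom.toAlgebra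
  have _ : IsScalarTower K A Ω := IsScalarTower.of_algebraMap_eq' φ.comp_algebraMap.symm
  have _ : IsScalarTower K A Ω' := IsScalarTower.of_algebraMap_eq' φ'.comp_algebraMap.symm
  have eφ : IsScalarTower.toAlgHom K A Ω = φ := AlgHom.ext fun _ => rfl
  have eφ' : IsScalarTower.toAlgHom K A Ω' = φ' := AlgHom.ext fun _ => rfl
  rw [← eφ] at h
  rw [← eφ']
  have hfree : Module.Free A ((A ⊗[K] B) ⧸ J) := Module.free_of_flat_of_isLocalRing
  have hfr : Module.finrank A ((A ⊗[K] B) ⧸ J) = r := by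
    have := hrk ⟨IsLocalRing.maximalIdeal A, inferInstance⟩
    rwa [Module.rankAtStalk_eq_finrank_of_free] at this
  have h1 : IsLocalRing (Ω ⊗[A] ((A ⊗[K] B) ⧸ J)) := (bcEquiv (Ω := Ω) J).symm.isLocalRing
  have h2 : IsLocalRing (Ω' ⊗[A] ((A ⊗[K] B) ⧸ J)) :=
    loc_gen (K := K) (A := A) (Ω := Ω) (Ω' := Ω') (Q := (A ⊗[K] B) ⧸ J) (by rw [hfr]; exact hr)
      hker h1
  exact RingEquiv.isLocalRing (A := Ω' ⊗[A] ((A ⊗[K] B) ⧸ J)) (bcEquiv (Ω := Ω') J)

end Pool.Agent.J4H79.EL
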