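import Pool.Agent.J4H46.EL.Stm

/-! Project EL: (FOD), (CUT). -/

set_option autoImplicit false

open scoped TensorProduct

universe u

namespace Pool.Agent.J4H79.EL

open Pool.Agent.J4H46.EL Pool.Agent.Helper226

theorem exists_span {L Q : Type*} [Field L] [AddCommGroup Q] [Module L Q] (M : Submodule L Q)
    [Module.Finite L M] (n : ℕ) (h : Module.finrank L M ≤ n) :
    ∃ v : Fin n → Q, M ≤ Submodule.span L (Set.range v) := by
  let e := Module.finBasis L M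
  refine ⟨fun i => if h : i.1 < Module.finrank L M then (e ⟨i.1, h⟩ : Q) else 0, ?_⟩
  intro y hy
  have h1 := e.sum_repr ⟨y, hy⟩
  have h2 : y = ∑ i, (e.repr ⟨y, hy⟩ i) • (e i : Q) := by
    have := congrArg (Submodule.subtype M) h1
    rw [map_sum] at this
    simpa using this.symm
  rw [h2]
  refine Submodule.sum_mem _ fun i _ => Submodule.smul_mem _ _ (Submodule.subset_span ?_)
  exact ⟨⟨i.1, lt_of_lt_of_le i.2 h⟩, by simp⟩

theorem exists_span_prod {L Q Q₁ Q₂ : Type*} [Field L] [AddCommGroup Q] [Module L Q]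
    [AddCommGroup Q₁] [Module L Q₁] [AddCommGroup Q₂] [Module L Q₂] (p₁ : Q →ₗ[L] Q₁)
    (p₂ : Q →ₗ[L] Q₂) (hp : ∀ x, p₁ x = 0 → p₂ x = 0 → x = 0) {ι : Type*} (f : ι → Q) (a b : ℕ)
    (v₁ : Fin a → Q₁) (v₂ : Fin b → Q₂)
    (h₁ : ∀ i, p₁ (f i) ∈ Submodule.span L (Set.range v₁))
    (h₂ : ∀ i, p₂ (f i) ∈ Submodule.span L (Set.range v₂)) :
    ∃ v : Fin (a + b) → Q, ∀ i, f i ∈ Submodule.span L (Set.range v) := by
  let M : Submodule L Q := Submodule.span L (Set.range f)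
  let N₁ := Submodule.span L (Set.range v₁)
  let N₂ := Submodule.span L (Set.range v₂)
  have hM1 : ∀ x : M, p₁ x.1 ∈ N₁ := by
    have : M ≤ N₁.comap p₁ := by
      rw [Submodule.span_le]
      rintro _ ⟨b, rfl⟩
      exact h₁ b
    exact fun x => this x.2
  have hM2 : ∀ x : M, p₂ x.1 ∈ N₂ := by
    have : M ≤ N₂.comap p₂ := by
      rw [Submodule.span_le]
      rintro _ ⟨b, rfl⟩
      exact h₂ b
    exact fun x => this x.2
  let q : M →ₗ[L] N₁ × N₂ :=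
    ((p₁.comp M.subtype).codRestrict N₁ hM1).prod ((p₂.comp M.subtype).codRestrict N₂ hM2)
  have hq : Function.Injective q := by
    rw [injective_iff_map_eq_zero]
    intro x hx
    apply Subtype.ext
    exact hp _ (congrArg (fun z => (z.1 : Q₁)) hx) (congrArg (fun z => (z.2 : Q₂)) hx)
  have hN1 : Module.finrank L N₁ ≤ a := by
    have := finrank_range_le_card (R := L) v₁
    rwa [Fintype.card_fin] at this
  have hN2 : Module.finrank L N₂ ≤ b := by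
    have := finrank_range_le_card (R := L) v₂
    rwa [Fintype.card_fin] at this
  have f1 : Module.Finite L N₁ := Module.Finite.span_of_finite L (Set.finite_range v₁)
  have f2 : Module.Finite L N₂ := Module.Finite.span_of_finite L (Set.finite_range v₂)
  have fM : Module.Finite L M := Module.Finite.of_injective q hq
  have hM : Module.finrank L M ≤ a + b := by
    refine (LinearMap.finrank_le_finrank_of_injective hq).trans ?_
    rw [Module.finrank_prod]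
    exact add_le_add hN1 hN2
  obtain ⟨v, hv⟩ := exists_span M (a + b) hM
  exact ⟨v, fun b => hv (Submodule.subset_span ⟨b, rfl⟩)⟩

theorem t_CUT : S_CUT.{u} := by
  intro K Ω B _ _ _ _ _ L a b J₁ J₂ h₁ h₂
  obtain ⟨v₁, h₁⟩ := h₁
  obtain ⟨v₂, h₂⟩ := h₂
  let p₁ : ((Ω ⊗[K] B) ⧸ (J₁ ⊓ J₂)) →ₗ[L] ((Ω ⊗[K] B) ⧸ J₁) :=
    (Ideal.Quotient.factorₐ Ω (inf_le_left : J₁ ⊓ J₂ ≤ J₁)).toLinearMap.restrictScalars L
  let p₂ : ((Ω ⊗[K] B) ⧸ (J₁ ⊓ J₂)) →ₗ[L] ((Ω ⊗[K] B) ⧸ J₂) :=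
    (Ideal.Quotient.factorₐ Ω (inf_le_right : J₁ ⊓ J₂ ≤ J₂)).toLinearMap.restrictScalars L
  refine exists_span_prod p₁ p₂ ?_
    (fun b : B => Ideal.Quotient.mk (J₁ ⊓ J₂) ((1 : Ω) ⊗ₜ[K] b)) a b v₁ v₂ h₁ h₂
  intro x hx1 hx2
  obtain ⟨x, rfl⟩ := Ideal.Quotient.mk_surjective x
  have e1 : p₁ (Ideal.Quotient.mk _ x) = Ideal.Quotient.mk J₁ x := rfl
  have e2 : p₂ (Ideal.Quotient.mk _ x) = Ideal.Quotient.mk J₂ x := rfl
  rw [e1, Ideal.Quotient.eq_zero_iff_mem] at hx1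
  rw [e2, Ideal.Quotient.eq_zero_iff_mem] at hx2
  exact Ideal.Quotient.eq_zero_iff_mem.2 ⟨hx1, hx2⟩

theorem t_FOD : S_FOD.{u} := by
  intro K κ Ω B _ _ _ _ _ _ _ ψ L a J' hJ' hψ
  obtain ⟨hfin, -, hrk⟩ := hJ'
  have hr : Module.finrank κ ((κ ⊗[K] B) ⧸ J') = a := by
    have := hrk ⟨⊥, Ideal.isPrime_bot⟩
    rwa [Module.rankAtStalk_eq_finrank_of_free] at this
  let e := Module.finBasisOfFinrankEq κ ((κ ⊗[K] B) ⧸ J') hr
  let T : κ ⊗[K] B →ₐ[K] Ω ⊗[K] B := Algebra.TensorProduct.map ψ (AlgHom.id K B)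
  let G : ((κ ⊗[K] B) ⧸ J') →+* ((Ω ⊗[K] B) ⧸ bcI B ψ J') :=
    Ideal.quotientMap _ T.toRingHom (by
      intro x hx
      exact Ideal.mem_map_of_mem _ hx)
  refine ⟨fun i => G (e i), fun b => ?_⟩
  have h1 : Ideal.Quotient.mk (bcI B ψ J') ((1 : Ω) ⊗ₜ[K] b)
      = G (Ideal.Quotient.mk J' ((1 : κ) ⊗ₜ[K] b)) := by
    have : G (Ideal.Quotient.mk J' ((1 : κ) ⊗ₜ[K] b))
        = Ideal.Quotient.mk (bcI B ψ J') (T ((1 : κ) ⊗ₜ[K] b)) := rfl
    rw [this]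
    simp [T]
  rw [h1, ← e.sum_repr (Ideal.Quotient.mk J' ((1 : κ) ⊗ₜ[K] b)), map_sum]
  refine Submodule.sum_mem _ fun i _ => ?_
  have h2 : ∀ (c : κ) (y : (κ ⊗[K] B) ⧸ J'), G (c • y) = (ψ c) • G y := by
    intro c y
    obtain ⟨y, rfl⟩ := Ideal.Quotient.mk_surjective y
    have e1 : G (c • Ideal.Quotient.mk J' y) = Ideal.Quotient.mk (bcI B ψ J') (T (c • y)) := rfl
    have e2 : (ψ c) • G (Ideal.Quotient.mk J' y)
        = Ideal.Quotient.mk (bcI B ψ J') ((ψ c) • T y) := rfl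
    rw [e1, e2]
    congr 1
    rw [Algebra.smul_def, Algebra.smul_def, map_mul]
    congr 1
  rw [h2]
  have h3 : ψ (e.repr (Ideal.Quotient.mk J' ((1 : κ) ⊗ₜ[K] b)) i) ∈ L := hψ ⟨_, rfl⟩
  have h4 := Submodule.smul_mem (Submodule.span L (Set.range fun i => G (e i)))
    (⟨_, h3⟩ : L) (Submodule.subset_span ⟨i, rfl⟩)
  exact h4

end Pool.Agent.J4H79.EL
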