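import Pool.Agent.J4H46.EL.Stm

/-! Project EL: (CMP), (TRD), (NUM). -/

set_option autoImplicit false

open scoped TensorProduct

universe u

namespace Pool.Agent.J4H79.EL

open Pool.Agent.J4H46.EL Algebra Cardinal

theorem t_NUM : S_NUM := by
  intro C R
  obtain ⟨m, hm⟩ : ∃ m : ℕ, m = C + R + 1 := ⟨_, rfl⟩
  have hm1 : 1 ≤ m := by omega
  obtain ⟨k, rfl⟩ : ∃ k, m = k + 1 := ⟨m - 1, by omega⟩
  -- s = 4 m - 2
  refine ⟨4 * k + 2, (k + 1) * (4 * k + 3), ?_⟩
  have h2 : (4 * k + 2 + 2).choose 2 = 2 * ((k + 1) * (4 * k + 3)) := by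
    rw [Nat.choose_two_right]
    have : (4 * k + 2 + 2) * (4 * k + 2 + 2 - 1) = 2 * (2 * ((k + 1) * (4 * k + 3))) := by
      have : 4 * k + 2 + 2 - 1 = 4 * k + 3 := by omega
      rw [this]; ring
    rw [this]; simp
  have h3 : 3 * (4 * k + 2 + 2).choose 3 = 4 * (k + 1) * (4 * k + 3) * (2 * k + 1) := by
    have h := Nat.choose_succ_right_eq (4 * k + 2 + 2) 2
    rw [h2] at h
    have h' : 4 * k + 2 + 2 - 2 = 4 * k + 2 := by omega
    rw [h'] at h
    have : 3 * (4 * k + 2 + 2).choose 3 = (4 * k + 2 + 2).choose (2 + 1) * (2 + 1) := by ring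
    rw [this, h]; ring
  have h4 : 2 * ((k + 1) * (4 * k + 3)) - (k + 1) * (4 * k + 3) = (k + 1) * (4 * k + 3) := by omega
  have hR : R < (k + 1) * (4 * k + 3) := by nlinarith
  rw [h2, h4]
  refine ⟨by omega, by omega, ?_⟩
  have hC : C ≤ k := by omega
  have key : 3 * (C * ((4 * k + 2 + 2).choose 3 + (k + 1) * (4 * k + 3)))
      < 3 * ((k + 1) * (4 * k + 3) * ((k + 1) * (4 * k + 3))) := by
    have e1 : 3 * (C * ((4 * k + 2 + 2).choose 3 + (k + 1) * (4 * k + 3)))
        = C * (8 * k + 7) * ((k + 1) * (4 * k + 3)) := by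
      have : 3 * (C * ((4 * k + 2 + 2).choose 3 + (k + 1) * (4 * k + 3)))
        = C * (3 * (4 * k + 2 + 2).choose 3 + 3 * ((k + 1) * (4 * k + 3))) := by ring
      rw [this, h3]; ring
    rw [e1]
    have e2 : 3 * ((k + 1) * (4 * k + 3) * ((k + 1) * (4 * k + 3)))
        = (3 * ((k + 1) * (4 * k + 3))) * ((k + 1) * (4 * k + 3)) := by ring
    rw [e2]
    apply Nat.mul_lt_mul_of_pos_right _ (by positivity)
    nlinarith
  omega

theorem t_TRD : S_TRD.{u} := by
  intro K A κ L _ _ _ _ _ _ _ _ π φ hπ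
  obtain ⟨s, x, hx⟩ := exists_isTranscendenceBasis' K κ
  rw [← hx.cardinalMk_eq_trdeg]
  choose g hg using hπ
  have hker : ∀ a : A, φ a = 0 → π a = 0 := by
    intro a ha
    by_contra h
    have hu : IsUnit a := by
      by_contra hn
      have h1 : IsUnit (1 - a) ∨ IsUnit a := by
        rcases IsLocalRing.isUnit_or_isUnit_one_sub_self a with h | h
        · exact Or.inr h
        · exact Or.inl h
      obtain ⟨b, hb⟩ := (IsUnit.mk0 (π a) h).exists_right_inv
      -- a * g b - 1 is in the kernel of π, hence not a unit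
      have h2 : π (1 - a * g b) = 0 := by
        rw [map_sub, map_mul, map_one, hg, hb, sub_self]
      have h3 : ¬ IsUnit (1 - a * g b) := by
        intro hu
        have := hu.map π
        rw [h2] at this
        exact not_isUnit_zero this
      rcases IsLocalRing.isUnit_or_isUnit_one_sub_self (a * g b) with h4 | h4
      · exact hn (isUnit_of_mul_isUnit_left h4)
      · exact h3 h4
    have := hu.map φ
    rw [ha] at this
    exact not_isUnit_zero this
  have hi : AlgebraicIndependent K (fun i => φ (g (x i))) := by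
    rw [algebraicIndependent_iff]
    intro p hp
    have h1 : φ (MvPolynomial.aeval (fun i => g (x i)) p) = 0 := by
      rw [← hp, MvPolynomial.comp_aeval_apply]
    have h2 := hker _ h1
    rw [MvPolynomial.comp_aeval_apply] at h2
    simp only [hg] at h2
    exact (algebraicIndependent_iff.1 hx.1) p h2
  exact hi.cardinalMk_le_trdeg

open scoped IntermediateField.algebraAdjoinAdjoin in
theorem trdeg_adjoin_le (K Ω : Type u) [Field K] [Field Ω] [Algebra K Ω] (S : Set Ω) :
    Algebra.trdeg K (IntermediateField.adjoin K S) ≤ #S := by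
  have h1 : Algebra.trdeg K (Algebra.adjoin K S) ≤ #S := by
    have h := trdeg_le_of_surjective (R := K)
      (MvPolynomial.aeval (fun s : S => (⟨s.1, Algebra.subset_adjoin s.2⟩ : Algebra.adjoin K S)))
      (by
        rintro ⟨y, hy⟩
        have hy' := hy
        rw [Algebra.adjoin_eq_range] at hy'
        obtain ⟨p, hp⟩ := hy'
        refine ⟨p, Subtype.ext ?_⟩
        have : ((MvPolynomial.aeval (fun s : S =>
            (⟨s.1, Algebra.subset_adjoin s.2⟩ : Algebra.adjoin K S)) p : Algebra.adjoin K S) : Ω)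
            = (Algebra.adjoin K S).val (MvPolynomial.aeval (fun s : S =>
            (⟨s.1, Algebra.subset_adjoin s.2⟩ : Algebra.adjoin K S)) p) := rfl
        rw [this, MvPolynomial.comp_aeval_apply]
        exact hp)
    rw [MvPolynomial.trdeg_of_isDomain] at h
    simpa using h
  have h2 := trdeg_add_eq K (Algebra.adjoin K S) (A := IntermediateField.adjoin K S)
  have h3 : Algebra.trdeg (Algebra.adjoin K S) (IntermediateField.adjoin K S) = 0 :=
    trdeg_eq_zero
  rw [h3, add_zero] at h2
  rw [← h2]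
  exact h1

theorem alg_of_basis (K Ω : Type u) [Field K] [Field Ω] [Algebra K Ω] (L F : IntermediateField K Ω)
    (ι : Type u) (x : ι → L) (hx : IsTranscendenceBasis K x) (hF : ∀ i, (x i : Ω) ∈ F) (y : Ω)
    (hy : y ∈ L) : IsAlgebraic F y := by
  have h1 : IsAlgebraic (Algebra.adjoin K (Set.range x)) (⟨y, hy⟩ : L) :=
    hx.isAlgebraic.isAlgebraic _
  have hle : ∀ z : L, z ∈ Algebra.adjoin K (Set.range x) → (z : Ω) ∈ F := by
    intro z hz
    have : Algebra.adjoin K (Set.range x) ≤ F.toSubalgebra.comap L.val := by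
      apply Algebra.adjoin_le
      rintro _ ⟨i, rfl⟩
      exact hF i
    exact this hz
  let f : Algebra.adjoin K (Set.range x) →+* F :=
    { toFun := fun z => ⟨(z.1 : Ω), hle z.1 z.2⟩
      map_one' := rfl
      map_mul' := fun _ _ => rfl
      map_zero' := rfl
      map_add' := fun _ _ => rfl }
  have hf : Function.Injective f := by
    intro a b h
    have := congrArg Subtype.val h
    exact Subtype.ext (Subtype.ext this)
  exact h1.ringHom_of_comp_eq f (algebraMap L Ω) hf rfl

theorem t_CMP : S_CMP.{u} := by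
  intro K Ω _ _ _ L₁ L₂
  obtain ⟨s₁, x₁, hx₁⟩ := exists_isTranscendenceBasis' K L₁
  obtain ⟨s₂, x₂, hx₂⟩ := exists_isTranscendenceBasis' K L₂
  rw [← hx₁.cardinalMk_eq_trdeg, ← hx₂.cardinalMk_eq_trdeg]
  let S : Set Ω := Set.range (fun i => (x₁ i : Ω)) ∪ Set.range (fun i => (x₂ i : Ω))
  let F : IntermediateField K Ω := IntermediateField.adjoin K S
  let C : IntermediateField F Ω := algebraicClosure F Ω
  have h₁ : L₁ ≤ C.restrictScalars K := by
    intro y hy
    exact (mem_algebraicClosure_iff).2 (alg_of_basis K Ω L₁ F s₁ x₁ hx₁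
      (fun i => IntermediateField.subset_adjoin K S (Or.inl ⟨i, rfl⟩)) y hy)
  have h₂ : L₂ ≤ C.restrictScalars K := by
    intro y hy
    exact (mem_algebraicClosure_iff).2 (alg_of_basis K Ω L₂ F s₂ x₂ hx₂
      (fun i => IntermediateField.subset_adjoin K S (Or.inr ⟨i, rfl⟩)) y hy)
  have h₃ : L₁ ⊔ L₂ ≤ C.restrictScalars K := sup_le h₁ h₂
  have h4 : Algebra.trdeg K (L₁ ⊔ L₂ : IntermediateField K Ω) ≤ Algebra.trdeg K C :=
    trdeg_le_of_injective (IntermediateField.inclusion h₃)
      (IntermediateField.inclusion_injective h₃)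
  haveI : FaithfulSMul F C := (faithfulSMul_iff_algebraMap_injective F C).2 (algebraMap F C).injective
  have h5 := trdeg_add_eq K F (A := C)
  have h6 : Algebra.trdeg F C = 0 := trdeg_eq_zero
  rw [h6, add_zero] at h5
  refine h4.trans ?_
  rw [← h5]
  refine (trdeg_adjoin_le K Ω S).trans ?_
  refine (Cardinal.mk_union_le _ _).trans ?_
  exact add_le_add Cardinal.mk_range_le Cardinal.mk_range_le

end Pool.Agent.J4H79.EL
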